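import Pool.Agent.Y627.PT.Stm

/-! Project PT627: sums and products of roots of polynomials with coefficients of bounded
degree. -/

set_option autoImplicit false

namespace Pool.Agent.Y38.PT6

open PowerSeries Pool.Agent.TH693.PP Pool.Agent.TH693.QQ Pool.Agent.H397R2.PP
open Pool.Agent.Y627.PT

variable {D : S} {h k h' k' : ℕ}

theorem In_mono {s : S} (hh : h ≤ h') (hk : k ≤ k') (H : In D h k s) : In D h' k' s := by
  obtain ⟨G, hG, e⟩ := H
  exact ⟨G, ⟨hG.1.trans hk, fun i => (hG.2 i).trans hh⟩, e⟩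

theorem In_zero : In D h k 0 := ⟨0, ⟨by simp, by simp⟩, map_zero _⟩

theorem In_one : In D h k 1 := by
  refine ⟨1, ⟨by simp, fun i => ?_⟩, map_one _⟩
  rw [Polynomial.coeff_one]
  split_ifs <;> simp

theorem In_add {s t : S} (hs : In D h k s) (ht : In D h k t) : In D h k (s + t) := by
  obtain ⟨G, hG, rfl⟩ := hs
  obtain ⟨G', hG', rfl⟩ := ht
  refine ⟨G + G', ⟨Polynomial.natDegree_add_le_of_degree_le hG.1 hG'.1, fun i => ?_⟩, map_add _ _ _⟩
  rw [Polynomial.coeff_add]
  exact Polynomial.natDegree_add_le_of_degree_le (hG.2 i) (hG'.2 i)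

theorem In_neg {s : S} (hs : In D h k s) : In D h k (-s) := by
  obtain ⟨G, hG, rfl⟩ := hs
  refine ⟨-G, ⟨by rw [Polynomial.natDegree_neg]; exact hG.1, fun i => ?_⟩, map_neg _ _⟩
  rw [Polynomial.coeff_neg, Polynomial.natDegree_neg]
  exact hG.2 i

theorem In_mul {s t : S} (hs : In D h k s) (ht : In D h' k' t) :
    In D (h + h') (k + k') (s * t) := by
  obtain ⟨G, hG, rfl⟩ := hs
  obtain ⟨G', hG', rfl⟩ := ht
  refine ⟨G * G', ⟨Polynomial.natDegree_mul_le.trans (Nat.add_le_add hG.1 hG'.1), fun i => ?_⟩,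
    map_mul _ _ _⟩
  rw [Polynomial.coeff_mul]
  refine Polynomial.natDegree_sum_le_of_forall_le _ _ (fun x _ => ?_)
  exact Polynomial.natDegree_mul_le.trans (Nat.add_le_add (hG.2 _) (hG'.2 _))

theorem In_sum {J : Type*} (s : Finset J) (f : J → S) (H : ∀ i ∈ s, In D h k (f i)) :
    In D h k (∑ i ∈ s, f i) := by
  classical
  induction s using Finset.induction_on with
  | empty => rw [Finset.sum_empty]; exact In_zero
  | insert a s ha ih =>
    rw [Finset.sum_insert ha]
    exact In_add (H a (Finset.mem_insert_self a s))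
      (ih (fun i hi => H i (Finset.mem_insert_of_mem hi)))

/-- all coefficients are in `In D h k` -/
def Gd (D : S) (h k : ℕ) (g : Polynomial S) : Prop := ∀ i, In D h k (g.coeff i)

theorem Gd_mul {g g' : Polynomial S} (hg : Gd D h k g) (hg' : Gd D h' k' g') :
    Gd D (h + h') (k + k') (g * g') := by
  intro i
  rw [Polynomial.coeff_mul]
  exact In_sum _ _ (fun x _ => In_mul (hg _) (hg' _))

theorem Gd_one : Gd D h k 1 := by
  intro i
  rw [Polynomial.coeff_one]
  split_ifs
  · exact In_one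
  · exact In_zero

theorem Gd_prod {J : Type*} (s : Finset J) (f : J → Polynomial S) (H : ∀ i ∈ s, Gd D h k (f i)) :
    Gd D (s.card * h) (s.card * k) (∏ i ∈ s, f i) := by
  classical
  induction s using Finset.induction_on with
  | empty => rw [Finset.prod_empty]; exact Gd_one
  | insert a s ha ih =>
    rw [Finset.prod_insert ha, Finset.card_insert_of_notMem ha]
    have h1 := Gd_mul (H a (Finset.mem_insert_self a s))
      (ih (fun i hi => H i (Finset.mem_insert_of_mem hi)))
    intro i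
    refine In_mono (le_of_eq ?_) (le_of_eq ?_) (h1 i) <;> ring

theorem Gd_entry {a b : S} (ha : In D h k a) (hb : In D h k b) :
    Gd D h k ((Polynomial.X : Polynomial S) * Polynomial.C a + Polynomial.C b) := by
  intro i
  rw [Polynomial.coeff_add]
  rcases i with _ | i
  · rw [Polynomial.coeff_X_mul_zero, zero_add, Polynomial.coeff_C_zero]
    exact hb
  · rw [Polynomial.coeff_X_mul, Polynomial.coeff_C_succ, add_zero, Polynomial.coeff_C]
    split_ifs
    · exact ha
    · exact In_zero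

/-- the determinant trick -/
theorem det_trick {J : Type*} [Fintype J] [DecidableEq J] {a b : ℕ} {l0 mu : S} (hl0 : l0 ≠ 0)
    (hin : In D a b l0) (c : J → J → S) (hc : ∀ i j, In D a b (c i j)) (v : J → S) (i0 : J)
    (hv : v i0 ≠ 0) (heq : ∀ i, l0 * mu * v i = ∑ j, c i j * v j) :
    Nc D (Fintype.card J) (Fintype.card J * a) (Fintype.card J * b) mu := by
  obtain ⟨A, hA⟩ : ∃ A : Matrix J J S, A = Matrix.diagonal (fun _ => l0) := ⟨_, rfl⟩
  obtain ⟨B, hB⟩ : ∃ B : Matrix J J S, B = Matrix.of (fun i j => -c i j) := ⟨_, rfl⟩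
  obtain ⟨M, hM⟩ : ∃ M : Matrix J J (Polynomial S),
      M = (Polynomial.X : Polynomial S) • A.map Polynomial.C + B.map Polynomial.C := ⟨_, rfl⟩
  have hMe : ∀ i j, M i j = Polynomial.X * Polynomial.C (A i j) + Polynomial.C (B i j) := by
    intro i j
    rw [hM]
    rfl
  have hAin : ∀ i j, In D a b (A i j) := by
    intro i j
    rw [hA, Matrix.diagonal_apply]
    split_ifs
    · exact hin
    · exact In_zero
  have hBin : ∀ i j, In D a b (B i j) := by
    intro i j
    rw [hB]
    exact In_neg (hc i j)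
  refine ⟨M.det, ?_, ?_, ?_, ?_⟩
  · intro h0
    have h1 := Polynomial.coeff_det_X_add_C_card A B
    rw [← hM, h0, Polynomial.coeff_zero, hA, Matrix.det_diagonal, Finset.prod_const] at h1
    exact pow_ne_zero _ hl0 h1.symm
  · rw [hM]
    exact Polynomial.natDegree_det_X_add_C_le A B
  · intro n
    rw [Matrix.det_apply, Polynomial.finsetSum_coeff]
    refine In_sum _ _ (fun σ _ => ?_)
    have h1 : Gd D (Fintype.card J * a) (Fintype.card J * b) (∏ i, M (σ i) i) := by
      have h2 := Gd_prod (D := D) (h := a) (k := b) Finset.univ (fun i => M (σ i) i)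
        (fun i _ => by rw [hMe]; exact Gd_entry (hAin _ _) (hBin _ _))
      rw [Finset.card_univ] at h2
      exact h2
    rcases Int.units_eq_one_or (Equiv.Perm.sign σ) with h3 | h3
    · rw [h3, one_smul]
      exact h1 n
    · rw [h3, Units.neg_smul, one_smul, Polynomial.coeff_neg]
      exact In_neg (h1 n)
  · have h1 : Polynomial.eval mu M.det = (M.map (Polynomial.eval mu)).det := by
      have := RingHom.map_det (Polynomial.evalRingHom mu) M
      exact this
    rw [h1]
    refine Matrix.exists_mulVec_eq_zero_iff.1 ⟨v, fun h0 => hv (by rw [h0]; rfl), ?_⟩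
    funext i
    rw [Matrix.mulVec, dotProduct, Pi.zero_apply]
    have h2 : ∀ j, (M.map (Polynomial.eval mu)) i j * v j =
        (if i = j then mu * l0 * v j else 0) - c i j * v j := by
      intro j
      rw [Matrix.map_apply, hMe, Polynomial.eval_add, Polynomial.eval_mul, Polynomial.eval_X,
        Polynomial.eval_C, Polynomial.eval_C, hA, hB, Matrix.diagonal_apply, Matrix.of_apply]
      split_ifs
      · ring
      · ring
    rw [Finset.sum_congr rfl (fun j _ => h2 j), Finset.sum_sub_distrib, Finset.sum_ite_eq,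
      if_pos (Finset.mem_univ i), ← heq i]
    ring

/-- the companion matrix -/
theorem companion {l : S} {p : Polynomial S} (hp : ∀ i, In D h k (p.coeff i)) (h0 : p.eval l = 0)
    {n : ℕ} (hn : p.natDegree = n) (h1 : 1 ≤ n) : ∃ a : Fin n → Fin n → S,
      (∀ i j, In D h k (a i j)) ∧
      ∀ i : Fin n, p.leadingCoeff * l * l ^ (i : ℕ) = ∑ j : Fin n, a i j * l ^ (j : ℕ) := by
  refine ⟨fun i j => if (i : ℕ) + 1 = n then -p.coeff j else
    if (j : ℕ) = i + 1 then p.leadingCoeff else 0, fun i j => ?_, fun i => ?_⟩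
  · show In D h k (if (i : ℕ) + 1 = n then -p.coeff j else
      if (j : ℕ) = i + 1 then p.leadingCoeff else 0)
    split_ifs
    · exact In_neg (hp _)
    · exact hp _
    · exact In_zero
  · by_cases hi : (i : ℕ) + 1 = n
    · simp only [hi, if_true]
      rw [Polynomial.eval_eq_sum_range, hn, Finset.sum_range_succ,
        Finset.sum_range (fun i => p.coeff i * l ^ i)] at h0
      have e : p.leadingCoeff = p.coeff n := by rw [← hn]; rfl
      have e2 : p.leadingCoeff * l * l ^ (i : ℕ) = p.coeff n * l ^ n := by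
        rw [e, mul_assoc, ← pow_succ', hi]
      simp only [neg_mul, Finset.sum_neg_distrib]
      rw [e2]
      exact eq_neg_of_add_eq_zero_right h0
    · simp only [hi, if_false]
      have hi' : (i : ℕ) + 1 < n := lt_of_le_of_ne i.isLt hi
      rw [Finset.sum_eq_single (⟨(i : ℕ) + 1, hi'⟩ : Fin n)]
      · rw [if_pos rfl, pow_succ']
        ring
      · intro j _ hj
        rw [if_neg (fun h2 => hj (Fin.ext h2)), zero_mul]
      · intro h2
        exact absurd (Finset.mem_univ _) h2

theorem Nc_deg {l : S} {m : ℕ} (H : Nc D m h k l) : ∃ (n : ℕ) (l1 : S) (a : Fin n → Fin n → S),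
    1 ≤ n ∧ n ≤ m ∧ l1 ≠ 0 ∧ In D h k l1 ∧ (∀ i j, In D h k (a i j)) ∧
      ∀ i : Fin n, l1 * l * l ^ (i : ℕ) = ∑ j : Fin n, a i j * l ^ (j : ℕ) := by
  obtain ⟨p, hp0, hpm, hp, hpe⟩ := H
  have h1 : 1 ≤ p.natDegree := by
    by_contra hc
    have h2 : p.natDegree = 0 := by omega
    rw [Polynomial.natDegree_eq_zero] at h2
    obtain ⟨c, rfl⟩ := h2
    rw [Polynomial.eval_C] at hpe
    rw [hpe] at hp0
    exact hp0 Polynomial.C_0
  obtain ⟨a, ha1, ha2⟩ := companion hp hpe rfl h1
  exact ⟨p.natDegree, p.leadingCoeff, a, h1, hpm, Polynomial.leadingCoeff_ne_zero.2 hp0, hp _,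
    ha1, ha2⟩

theorem Nc_mono {l : S} {m m' : ℕ} (hm : m ≤ m') (hh : h ≤ h') (hk : k ≤ k')
    (H : Nc D m h k l) : Nc D m' h' k' l := by
  obtain ⟨p, h1, h2, h3, h4⟩ := H
  exact ⟨p, h1, h2.trans hm, fun i => In_mono hh hk (h3 i), h4⟩

theorem clo : S_CLO := by
  intro D l l' m h k m' h' k' H H'
  obtain ⟨n, l1, a, hn, hnm, hl1, hl1i, ha, hae⟩ := Nc_deg H
  obtain ⟨n', l2, b, hn', hnm', hl2, hl2i, hb, hbe⟩ := Nc_deg H'
  have hcard : Fintype.card (Fin n × Fin n') = n * n' := by
    rw [Fintype.card_prod, Fintype.card_fin, Fintype.card_fin]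
  have hmn : n * n' ≤ m * m' := Nat.mul_le_mul hnm hnm'
  have hl12 : l1 * l2 ≠ 0 := mul_ne_zero hl1 hl2
  have hv : (fun q : Fin n × Fin n' => l ^ (q.1 : ℕ) * l' ^ (q.2 : ℕ))
      (⟨0, hn⟩, ⟨0, hn'⟩) ≠ 0 := by
    show l ^ 0 * l' ^ 0 ≠ 0
    rw [pow_zero, pow_zero, mul_one]
    exact one_ne_zero
  constructor
  · have key := det_trick (D := D) (a := h + h') (b := k + k') (l0 := l1 * l2) (mu := l + l')
      hl12 (In_mul hl1i hl2i)
      (fun q q' : Fin n × Fin n' => (if q.2 = q'.2 then a q.1 q'.1 * l2 else 0) +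
        (if q.1 = q'.1 then l1 * b q.2 q'.2 else 0))
      (fun q q' => by
        refine In_add ?_ ?_
        · split_ifs
          · exact In_mul (ha _ _) hl2i
          · exact In_zero
        · split_ifs
          · exact In_mul hl1i (hb _ _)
          · exact In_zero)
      (fun q => l ^ (q.1 : ℕ) * l' ^ (q.2 : ℕ)) (⟨0, hn⟩, ⟨0, hn'⟩) hv
      (fun q => by
        obtain ⟨i, j⟩ := q
        simp only [add_mul, ite_mul, zero_mul]
        rw [Finset.sum_add_distrib, Fintype.sum_prod_type, Fintype.sum_prod_type_right]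
        simp only [Finset.sum_ite_eq, Finset.mem_univ, if_true]
        have e1 : ∑ i' : Fin n, a i i' * l2 * (l ^ (i' : ℕ) * l' ^ (j : ℕ)) =
            l2 * l' ^ (j : ℕ) * (l1 * l * l ^ (i : ℕ)) := by
          rw [hae, Finset.mul_sum]
          exact Finset.sum_congr rfl (fun i' _ => by ring)
        have e2 : ∑ j' : Fin n', l1 * b j j' * (l ^ (i : ℕ) * l' ^ (j' : ℕ)) =
            l1 * l ^ (i : ℕ) * (l2 * l' * l' ^ (j : ℕ)) := by
          rw [hbe, Finset.mul_sum]
          exact Finset.sum_congr rfl (fun i' _ => by ring)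
        rw [e1, e2]
        ring)
    rw [hcard] at key
    exact Nc_mono hmn (Nat.mul_le_mul_right _ hmn) (Nat.mul_le_mul_right _ hmn) key
  · have key := det_trick (D := D) (a := h + h') (b := k + k') (l0 := l1 * l2) (mu := l * l')
      hl12 (In_mul hl1i hl2i)
      (fun q q' : Fin n × Fin n' => a q.1 q'.1 * b q.2 q'.2)
      (fun q q' => In_mul (ha _ _) (hb _ _))
      (fun q => l ^ (q.1 : ℕ) * l' ^ (q.2 : ℕ)) (⟨0, hn⟩, ⟨0, hn'⟩) hv
      (fun q => by
        obtain ⟨i, j⟩ := q
        rw [Fintype.sum_prod_type]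
        have e1 : ∀ i' : Fin n, ∑ j' : Fin n', a i i' * b j j' *
            (l ^ (i' : ℕ) * l' ^ (j' : ℕ)) = a i i' * l ^ (i' : ℕ) *
              (l2 * l' * l' ^ (j : ℕ)) := by
          intro i'
          rw [hbe, Finset.mul_sum]
          exact Finset.sum_congr rfl (fun j' _ => by ring)
        show _ = ∑ i' : Fin n, ∑ j' : Fin n', a i i' * b j j' * (l ^ (i' : ℕ) * l' ^ (j' : ℕ))
        rw [Finset.sum_congr rfl (fun i' _ => e1 i'), ← Finset.sum_mul, ← hae]
        ring)
    rw [hcard] at key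
    exact Nc_mono hmn (Nat.mul_le_mul_right _ hmn) (Nat.mul_le_mul_right _ hmn) key

end Pool.Agent.Y38.PT6
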