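import Pool.Agent.Y627.PT.Stm

/-! Project PT627: polynomials in `Y ^ 2` over `F_2[X]`. -/

set_option autoImplicit false

namespace Pool.Agent.Y38.PT6

open PowerSeries Pool.Agent.TH693.PP Pool.Agent.TH693.QQ Pool.Agent.H397R2.PP
open Pool.Agent.Y627.PT

/-- even part -/
noncomputable def ev (f : F) : F := Polynomial.contract 2 f

/-- odd part -/
noncomputable def od (f : F) : F := Polynomial.contract 2 (Polynomial.divX f)

theorem ev_coeff (f : F) (n : ℕ) : (ev f).coeff n = f.coeff (n * 2) :=
  Polynomial.coeff_contract (by norm_num) f n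

theorem od_coeff (f : F) (n : ℕ) : (od f).coeff n = f.coeff (n * 2 + 1) := by
  unfold od
  rw [Polynomial.coeff_contract (by norm_num), Polynomial.coeff_divX]

theorem ev_deg {f : F} {h : ℕ} (hf : f.natDegree ≤ h) : (ev f).natDegree ≤ h / 2 := by
  rw [Polynomial.natDegree_le_iff_coeff_eq_zero]
  intro n hn
  rw [ev_coeff]
  exact Polynomial.coeff_eq_zero_of_natDegree_lt (by omega)

theorem od_deg {f : F} {h : ℕ} (hf : f.natDegree ≤ h) : (od f).natDegree ≤ h / 2 := by
  rw [Polynomial.natDegree_le_iff_coeff_eq_zero]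
  intro n hn
  rw [od_coeff]
  exact Polynomial.coeff_eq_zero_of_natDegree_lt (by omega)

theorem split (f : F) : f = ev f ^ 2 + Polynomial.X * od f ^ 2 := by
  haveI : Fact (Nat.Prime 2) := ⟨Nat.prime_two⟩
  rw [← ZMod.expand_card, ← ZMod.expand_card]
  ext n
  rw [Polynomial.coeff_add, Polynomial.coeff_expand (by norm_num)]
  rcases n with _ | n
  · rw [Polynomial.coeff_X_mul_zero, if_pos (dvd_zero 2), ev_coeff, add_zero]
  · rw [Polynomial.coeff_X_mul, Polynomial.coeff_expand (by norm_num)]
    rcases Nat.even_or_odd n with hn | hn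
    · obtain ⟨m, hm⟩ := hn
      rw [if_neg (by omega), if_pos (by omega), od_coeff, zero_add]
      congr 1
      omega
    · obtain ⟨m, hm⟩ := hn
      rw [if_pos (by omega), if_neg (by omega), ev_coeff, add_zero]
      congr 1
      omega

theorem sumsq {J : Type*} (s : Finset J) (f : J → S) : (∑ i ∈ s, f i) ^ 2 = ∑ i ∈ s, f i ^ 2 := by
  classical
  induction s using Finset.induction_on with
  | empty => simp
  | insert a s ha ih => rw [Finset.sum_insert ha, Finset.sum_insert ha, add_sq, ih]

theorem evp_mon (z : S) (n : ℕ) (c : F) : evp z (Polynomial.monomial n c) = io c * z ^ n := by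
  unfold evp
  rw [Polynomial.coe_eval₂RingHom, Polynomial.eval₂_monomial]

theorem sq : S_SQ := by
  intro Q h d hQ hder
  have hodd : ∀ n, Q.coeff (2 * n + 1) = 0 := by
    intro n
    have h1 := congrArg (fun P => Polynomial.coeff P (2 * n)) hder
    simp only [Polynomial.coeff_derivative, Polynomial.coeff_zero] at h1
    have h2 : ((2 * n : ℕ) : F) + 1 = 1 := by
      have h3 : (2 : F) = 0 := by
        have h4 : ((2 : ℕ) : F) = 0 := CharP.cast_eq_zero F 2
        exact_mod_cast h4
      push_cast
      rw [h3]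
      ring
    rw [h2, mul_one] at h1
    exact h1
  have hQs : Q = ∑ i ∈ Finset.range (d / 2 + 1), Polynomial.monomial (2 * i) (Q.coeff (2 * i)) := by
    ext1 n
    rw [Polynomial.finsetSum_coeff]
    simp only [Polynomial.coeff_monomial]
    rcases Nat.even_or_odd n with hn | hn
    · obtain ⟨m, hm⟩ := hn
      by_cases hm2 : m < d / 2 + 1
      · rw [Finset.sum_eq_single m]
        · rw [if_pos (by omega), show n = 2 * m by omega]
        · intro b _ hb
          rw [if_neg (by omega)]
        · intro hb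
          exact absurd (Finset.mem_range.2 hm2) hb
      · rw [Finset.sum_eq_zero]
        · exact Polynomial.coeff_eq_zero_of_natDegree_lt (by have := hQ.1; omega)
        · intro b hb
          rw [Finset.mem_range] at hb
          rw [if_neg (by omega)]
    · obtain ⟨m, hm⟩ := hn
      rw [Finset.sum_eq_zero]
      · rw [hm, hodd]
      · intro b hb
        rw [if_neg (by omega)]
  have hdeg : ∀ c : ℕ → F, (∀ i, (c i).natDegree ≤ h / 2) → Bd (h / 2) (d / 2)
      (∑ i ∈ Finset.range (d / 2 + 1), Polynomial.monomial i (c i)) ∧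
      ∀ i ∈ Finset.range (d / 2 + 1), (∑ i ∈ Finset.range (d / 2 + 1),
        Polynomial.monomial i (c i)).coeff i = c i := by
    intro c hc
    have h1 : ∀ n, (∑ i ∈ Finset.range (d / 2 + 1), Polynomial.monomial i (c i)).coeff n =
        if n ∈ Finset.range (d / 2 + 1) then c n else 0 := by
      intro n
      rw [Polynomial.finsetSum_coeff]
      simp only [Polynomial.coeff_monomial]
      rw [Finset.sum_ite_eq']
    refine ⟨⟨?_, fun n => ?_⟩, fun i hi => ?_⟩
    · refine Polynomial.natDegree_sum_le_of_forall_le _ _ (fun i hi => ?_)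
      rw [Finset.mem_range] at hi
      exact (Polynomial.natDegree_monomial_le _).trans (by omega)
    · rw [h1]
      split_ifs
      · exact hc n
      · simp
    · rw [h1, if_pos hi]
  obtain ⟨hA1, hA2⟩ := hdeg (fun i => ev (Q.coeff (2 * i))) (fun i => ev_deg (hQ.2 _))
  obtain ⟨hB1, hB2⟩ := hdeg (fun i => od (Q.coeff (2 * i))) (fun i => od_deg (hQ.2 _))
  refine ⟨_, _, hA1, hB1, ?_, ?_⟩
  · intro hQ0
    by_contra hc
    push Not at hc
    obtain ⟨hA0, hB0⟩ := hc
    apply hQ0
    rw [hQs]
    refine Finset.sum_eq_zero (fun i hi => ?_)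
    have e1 := hA2 i hi
    have e2 := hB2 i hi
    rw [hA0, Polynomial.coeff_zero] at e1
    rw [hB0, Polynomial.coeff_zero] at e2
    rw [split (Q.coeff (2 * i)), ← e1, ← e2]
    simp
  · intro z
    conv_lhs => rw [hQs]
    rw [map_sum, map_sum, map_sum, sumsq, sumsq, Finset.mul_sum, ← Finset.sum_add_distrib]
    refine Finset.sum_congr rfl (fun i _ => ?_)
    rw [evp_mon, evp_mon, evp_mon]
    conv_lhs => rw [split (Q.coeff (2 * i))]
    have hX : io (Polynomial.X : F) = (X : S) := Polynomial.coe_X
    rw [map_add, map_mul, map_pow, map_pow, hX]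
    ring

theorem coeff_sq_even (a : S) (m : ℕ) : PowerSeries.coeff (2 * m) (a ^ 2) =
    PowerSeries.coeff m a := by
  rw [Pool.Agent.H397R2.PP.pow_eq_expand' 2 1 (by norm_num) (by norm_num)]
  exact PowerSeries.coeff_expand_mul 2 (by norm_num) a m

theorem coeff_sq_odd (a : S) (m : ℕ) : PowerSeries.coeff (2 * m + 1) (a ^ 2) = 0 := by
  rw [Pool.Agent.H397R2.PP.pow_eq_expand' 2 1 (by norm_num) (by norm_num)]
  exact PowerSeries.coeff_expand_of_not_dvd 2 (by norm_num) a (by omega)

theorem val : S_VAL := by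
  intro a b N hN
  rw [PowerSeries.X_pow_dvd_iff] at hN
  constructor
  · rw [PowerSeries.X_pow_dvd_iff]
    intro m hm
    have h1 := hN (2 * m) (by omega)
    rw [map_add, coeff_sq_even] at h1
    have h2 : PowerSeries.coeff (2 * m) ((X : S) * b ^ 2) = 0 := by
      rcases m with _ | m
      · simp
      · rw [show 2 * (m + 1) = (2 * m + 1) + 1 by ring, PowerSeries.coeff_succ_X_mul, coeff_sq_odd]
    rw [h2, add_zero] at h1
    exact h1
  · rw [PowerSeries.X_pow_dvd_iff]
    intro m hm
    have h1 := hN (2 * m + 1) (by omega)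
    rw [map_add, coeff_sq_odd, zero_add, PowerSeries.coeff_succ_X_mul, coeff_sq_even] at h1
    exact h1

end Pool.Agent.Y38.PT6
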